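import Mathlib

set_option autoImplicit false

/-!
# Tiles at the points of a plane lattice: characters
-/

namespace Pool.H3JL

/-- Parity. -/
def par (n : ℤ) : Bool := decide (n % 2 = 1)

theorem par_add (m n : ℤ) : par (m + n) = (par m ^^ par n) := by
  unfold par
  rcases Int.emod_two_eq_zero_or_one m with h1 | h1 <;>
    rcases Int.emod_two_eq_zero_or_one n with h2 | h2 <;>
    simp [Int.add_emod, h1, h2]

theorem par_neg (m : ℤ) : par (-m) = par m := by
  unfold par
  rcases Int.emod_two_eq_zero_or_one m with h1 | h1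
  · have : (-m) % 2 = 0 := by omega
    rw [h1, this]
  · have : (-m) % 2 = 1 := by omega
    rw [h1, this]

theorem par_mul (m n : ℤ) : par (m * n) = (par m && par n) := by
  unfold par
  rcases Int.emod_two_eq_zero_or_one m with h1 | h1 <;>
    rcases Int.emod_two_eq_zero_or_one n with h2 | h2 <;>
    simp [Int.mul_emod, h1, h2]

theorem par_sub (m n : ℤ) : par (m - n) = (par m ^^ par n) := by
  rw [sub_eq_add_neg, par_add, par_neg]

/-- The characters of the lattice of order at most two. -/
def chr (x y : Bool) (v : ℤ × ℤ) : Bool := (x && par v.1) ^^ (y && par v.2)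

theorem chr_add (x y : Bool) (v w : ℤ × ℤ) : chr x y (v + w) = (chr x y v ^^ chr x y w) := by
  unfold chr
  rw [Prod.fst_add, Prod.snd_add, par_add, par_add]
  cases x <;> cases y <;> cases par v.1 <;> cases par v.2 <;> cases par w.1 <;> cases par w.2 <;>
    rfl

theorem chr_neg (x y : Bool) (v : ℤ × ℤ) : chr x y (-v) = chr x y v := by
  unfold chr
  rw [Prod.fst_neg, Prod.snd_neg, par_neg, par_neg]

theorem chr_zero (x y : Bool) : chr x y 0 = false := by
  cases x <;> cases y <;> rfl

/-- Iteration of a sign rule. -/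
theorem rule_zsmul {s : ℤ × ℤ → Bool} {v : ℤ × ℤ} {y : Bool}
    (h : ∀ u, s (u + v) = (s u ^^ y)) (n : ℤ) : ∀ u, s (u + n • v) = (s u ^^ (y && par n)) := by
  induction n using Int.induction_on with
  | zero =>
    intro u
    have : par 0 = false := rfl
    rw [zero_smul, add_zero, this]
    simp
  | succ k ih =>
    intro u
    have e : u + ((k : ℤ) + 1) • v = (u + (k : ℤ) • v) + v := by
      rw [add_smul, one_smul, add_assoc]
    rw [e, h, ih, par_add]
    have : par 1 = true := rfl
    rw [this]
    cases y <;> cases s u <;> cases par k <;> rfl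
  | pred k ih =>
    intro u
    have e : u + (-(k : ℤ)) • v = (u + (-(k : ℤ) - 1) • v) + v := by
      rw [sub_smul, one_smul]
      abel
    have h2 := h (u + (-(k : ℤ) - 1) • v)
    rw [← e, ih] at h2
    rw [par_sub]
    have : par 1 = true := rfl
    rw [this]
    revert h2
    cases y <;> cases s u <;> cases par (-(k : ℤ)) <;> cases s (u + (-(k : ℤ) - 1) • v) <;> simp

theorem rule_sum {s : ℤ × ℤ → Bool} {v1 v2 v3 : ℤ × ℤ} {y1 y2 y3 : Bool}
    (h1 : ∀ u, s (u + v1) = (s u ^^ y1)) (h2 : ∀ u, s (u + v2) = (s u ^^ y2))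
    (h3 : ∀ u, s (u + v3) = (s u ^^ y3)) (a1 : par v1.1 = true) (b1 : par v1.2 = false)
    (a2 : par v2.1 = false) (b2 : par v2.2 = true) (a3 : par v3.1 = true) (b3 : par v3.2 = true) :
    y3 = (y1 ^^ y2) := by
  have e : (v1.1 * v2.2 - v2.1 * v1.2) • v3 = (v3.1 * v2.2 - v2.1 * v3.2) • v1
      + (v1.1 * v3.2 - v3.1 * v1.2) • v2 := by
    ext
    · simp only [Prod.smul_fst, Prod.fst_add, smul_eq_mul]
      ring
    · simp only [Prod.smul_snd, Prod.snd_add, smul_eq_mul]
      ring
  have e1 := rule_zsmul h3 (v1.1 * v2.2 - v2.1 * v1.2) 0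
  have e2 := rule_zsmul h1 (v3.1 * v2.2 - v2.1 * v3.2) 0
  have e3 := rule_zsmul h2 (v1.1 * v3.2 - v3.1 * v1.2)
    (0 + (v3.1 * v2.2 - v2.1 * v3.2) • v1)
  rw [e2, add_assoc, ← e, e1] at e3
  rw [par_sub, par_mul, par_mul, par_sub, par_mul, par_mul, par_sub, par_mul, par_mul,
    a1, b1, a2, b2, a3, b3] at e3
  revert e3
  cases y1 <;> cases y2 <;> cases y3 <;> cases s 0 <;> simp

theorem pick (P Q R : Bool → Prop) (hP : ¬(P false ∧ P true)) (hQ : ¬(Q false ∧ Q true))
    (hR : ¬(R false ∧ R true)) (h : ∀ a b c, P a → Q b → R c → c = (a ^^ b)) :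
    ∃ x y, ¬P (!x) ∧ ¬Q (!y) ∧ ¬R (!(x ^^ y)) := by
  have h1 := h false false
  have h2 := h false true
  have h3 := h true false
  have h4 := h true true
  have k1 := h1 true
  have k2 := h2 false
  have k3 := h3 false
  have k4 := h4 true
  clear h h1 h2 h3 h4
  by_cases p0 : P false <;> by_cases p1 : P true <;> by_cases q0 : Q false <;>
    by_cases q1 : Q true <;> by_cases r0 : R false <;> by_cases r1 : R true <;>
    simp only [p0, p1, q0, q1, r0, r1, not_true_eq_false, not_false_eq_true, and_true, and_false,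
      true_and, false_and, forall_true_left, Bool.xor_false, Bool.xor_true, Bool.not_false,
      Bool.not_true, Bool.true_eq_false, Bool.false_eq_true, IsEmpty.forall_iff, and_self,
      imp_false, not_false_eq_true, reduceCtorEq] at hP hQ hR k1 k2 k3 k4 <;>
    first
      | exact ⟨false, false, by simpa using p1, by simpa using q1, by simpa using r1⟩
      | exact ⟨false, true, by simpa using p1, by simpa using q0, by simpa using r0⟩
      | exact ⟨true, false, by simpa using p0, by simpa using q1, by simpa using r0⟩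
      | exact ⟨true, true, by simpa using p0, by simpa using q0, by simpa using r1⟩

end Pool.H3JL
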