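import Pool.Agent.Helper3.JL.Main

set_option autoImplicit false

/-!
# Tiles at the points of a plane lattice: the final statement
-/

namespace Pool.H3JL

open Set

/-- The lattice spanned by `v` and `w`. -/
def Lattice (v w : E) : Set E := {p | ∃ m n : ℤ, p = (m : ℝ) • v + (n : ℝ) • w}

section

variable {b : Module.Basis (Fin 2) ℝ E} {T : Set E}

/-- The isometry which moves `tl 0 false` to `tl z s`. -/
noncomputable def mo (b : Module.Basis (Fin 2) ℝ E) (z : ℤ × ℤ) (s : Bool) : E ≃ᵢ E :=
  if s then IsometryEquiv.subLeft (pt b z) else IsometryEquiv.addLeft (pt b z)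

theorem mo_tl (z w : ℤ × ℤ) (s t : Bool) :
    mo b z s '' tl b T w t = tl b T (if s then z - w else z + w) (s ^^ t) := by
  ext p
  constructor
  · rintro ⟨q, hq, rfl⟩
    cases s <;> cases t
    · have h : q - pt b w ∈ T := hq
      show pt b z + q - pt b (z + w) ∈ T
      rwa [pt_add, show pt b z + q - (pt b z + pt b w) = q - pt b w by abel]
    · have h : pt b w - q ∈ T := hq
      show pt b (z + w) - (pt b z + q) ∈ T
      rwa [pt_add, show pt b z + pt b w - (pt b z + q) = pt b w - q by abel]
    · have h : q - pt b w ∈ T := hq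
      show pt b (z - w) - (pt b z - q) ∈ T
      rwa [pt_sub, show pt b z - pt b w - (pt b z - q) = q - pt b w by abel]
    · have h : pt b w - q ∈ T := hq
      show pt b z - q - pt b (z - w) ∈ T
      rwa [pt_sub, show pt b z - q - (pt b z - pt b w) = pt b w - q by abel]
  · intro hp
    cases s <;> cases t
    · have h : p - pt b (z + w) ∈ T := hp
      refine ⟨p - pt b z, ?_, ?_⟩
      · show p - pt b z - pt b w ∈ T
        rwa [pt_add, ← sub_sub] at h
      · show pt b z + (p - pt b z) = p
        abel
    · have h : pt b (z + w) - p ∈ T := hp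
      refine ⟨p - pt b z, ?_, ?_⟩
      · show pt b w - (p - pt b z) ∈ T
        rwa [pt_add, show pt b z + pt b w - p = pt b w - (p - pt b z) by abel] at h
      · show pt b z + (p - pt b z) = p
        abel
    · have h : pt b (z - w) - p ∈ T := hp
      refine ⟨pt b z - p, ?_, ?_⟩
      · show pt b z - p - pt b w ∈ T
        rwa [pt_sub, show pt b z - pt b w - p = pt b z - p - pt b w by abel] at h
      · show pt b z - (pt b z - p) = p
        abel
    · have h : p - pt b (z - w) ∈ T := hp
      refine ⟨pt b z - p, ?_, ?_⟩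
      · show pt b w - (pt b z - p) ∈ T
        rwa [pt_sub, show p - (pt b z - pt b w) = pt b w - (pt b z - p) by abel] at h
      · show pt b z - (pt b z - p) = p
        abel

/-- The family of a character is isohedral. -/
theorem isohedral_of_chr (x y : Bool)
    (hcov : ∀ p, ∃ z, p ∈ tl b T z (chr x y z))
    (hdis : ∀ z w, z ≠ w → Disjoint (interior (tl b T z (chr x y z)))
      (interior (tl b T w (chr x y w)))) :
    ∃ 𝒯 : Set (Set E),
      (∀ A ∈ 𝒯, ∃ f : E ≃ᵢ E, A = f '' T) ∧
      ⋃₀ 𝒯 = univ ∧
      𝒯.Pairwise (fun A B => Disjoint (interior A) (interior B)) ∧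
      ∀ A ∈ 𝒯, ∀ B ∈ 𝒯, ∃ f : E ≃ᵢ E, Set.image (fun C : Set E => f '' C) 𝒯 = 𝒯 ∧
        f '' A = B := by
  have hT0 : tl b T 0 false = T := by
    ext p
    rw [mem_tl_false, pt_zero, sub_zero]
  -- the symmetry which moves the tile `0` to the tile `z` permutes the tiles
  have hperm : ∀ z, Set.image (fun C : Set E => mo b z (chr x y z) '' C)
      (range fun w => tl b T w (chr x y w)) = range fun w => tl b T w (chr x y w) := by
    intro z
    have key : ∀ w, mo b z (chr x y z) '' tl b T w (chr x y w)
        = tl b T (if chr x y z then z - w else z + w)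
          (chr x y (if chr x y z then z - w else z + w)) := by
      intro w
      rw [mo_tl]
      congr 1
      cases h : chr x y z
      · rw [if_neg (by simp), chr_add, h]
      · rw [if_pos rfl, sub_eq_add_neg, chr_add, chr_neg, h]
    ext A
    constructor
    · rintro ⟨_, ⟨w, rfl⟩, rfl⟩
      exact ⟨_, (key w).symm⟩
    · rintro ⟨w, rfl⟩
      refine ⟨_, ⟨if chr x y z then z - w else w - z, rfl⟩, ?_⟩
      show mo b z (chr x y z) '' tl b T _ _ = _
      rw [key]
      have e : (if chr x y z then z - (if chr x y z then z - w else w - z)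
          else z + (if chr x y z then z - w else w - z)) = w := by
        cases chr x y z
        · rw [if_neg (by simp), if_neg (by simp)]
          abel
        · rw [if_pos rfl, if_pos rfl]
          abel
      rw [e]
  have hmove : ∀ z, mo b z (chr x y z) '' T = tl b T z (chr x y z) := by
    intro z
    have h := mo_tl (b := b) (T := T) z 0 (chr x y z) false
    rw [hT0, Bool.xor_false] at h
    rw [h]
    congr 1
    cases chr x y z
    · rw [if_neg (by simp), add_zero]
    · rw [if_pos rfl, sub_zero]
  refine ⟨range fun w => tl b T w (chr x y w), ?_, ?_, ?_, ?_⟩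
  · rintro _ ⟨w, rfl⟩
    exact ⟨mo b w (chr x y w), (hmove w).symm⟩
  · rw [sUnion_range, eq_univ_iff_forall]
    intro p
    obtain ⟨z, hz⟩ := hcov p
    exact mem_iUnion.2 ⟨z, hz⟩
  · rintro _ ⟨z, rfl⟩ _ ⟨w, rfl⟩ hne
    exact hdis z w fun h => hne (by rw [h])
  · rintro _ ⟨z, rfl⟩ _ ⟨w, rfl⟩
    refine ⟨(mo b z (chr x y z)).symm.trans (mo b w (chr x y w)), ?_, ?_⟩
    · have e : ∀ C : Set E, ((mo b z (chr x y z)).symm.trans (mo b w (chr x y w))) '' C
          = mo b w (chr x y w) '' ((mo b z (chr x y z)).symm '' C) := by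
        intro C
        rw [image_image]
        rfl
      have h1 : Set.image (fun C : Set E => (mo b z (chr x y z)).symm '' C)
          (range fun w => tl b T w (chr x y w)) = range fun w => tl b T w (chr x y w) := by
        conv_lhs => rw [← hperm z]
        rw [image_image]
        have : (fun C : Set E => (mo b z (chr x y z)).symm '' (mo b z (chr x y z) '' C))
            = fun C => C := by
          funext C
          rw [image_image]
          simp
        rw [this, image_id']
      calc Set.image (fun C : Set E => ((mo b z (chr x y z)).symm.trans (mo b w (chr x y w))) '' C)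
            (range fun w => tl b T w (chr x y w))
          = Set.image (fun C : Set E => mo b w (chr x y w) '' C)
            (Set.image (fun C : Set E => (mo b z (chr x y z)).symm '' C)
              (range fun w => tl b T w (chr x y w))) := by
            rw [image_image]
            exact image_congr fun C _ => e C
        _ = _ := by rw [h1, hperm w]
    · have e : ((mo b z (chr x y z)).symm.trans (mo b w (chr x y w))) '' tl b T z (chr x y z)
          = mo b w (chr x y w) '' ((mo b z (chr x y z)).symm '' (mo b z (chr x y z) '' T)) := by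
        rw [hmove z, image_image]
        rfl
      rw [e]
      have e2 : (mo b z (chr x y z)).symm '' (mo b z (chr x y z) '' T) = T := by
        rw [image_image]
        simp
      rw [e2, hmove w]

end

theorem isohedral_lattice (v w : E) (hvw : LinearIndependent ℝ ![v, w]) (T : Set E)
    (hT : closure (interior T) = T)
    (hn : ∀ p ∈ T, ∀ x ∈ Lattice v w, ∀ y ∈ Lattice v w, ‖p - x‖ < ‖p‖ → ‖p - y‖ < ‖p‖ → x = y)
    (g : E → E ≃ₗᵢ[ℝ] E)
    (hg : ∀ u ∈ Lattice v w, (∀ x, g u x = x) ∨ (∀ x, g u x = -x))
    (hcov : (⋃ u ∈ Lattice v w, (fun x => u + g u x) '' T) = univ)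
    (hdis : ∀ u ∈ Lattice v w, ∀ u' ∈ Lattice v w, u ≠ u' →
      Disjoint (interior ((fun x => u + g u x) '' T)) (interior ((fun x => u' + g u' x) '' T))) :
    ∃ 𝒯 : Set (Set E),
      (∀ A ∈ 𝒯, ∃ f : E ≃ᵢ E, A = f '' T) ∧
      ⋃₀ 𝒯 = univ ∧
      𝒯.Pairwise (fun A B => Disjoint (interior A) (interior B)) ∧
      ∀ A ∈ 𝒯, ∀ B ∈ 𝒯, ∃ f : E ≃ᵢ E, Set.image (fun C : Set E => f '' C) 𝒯 = 𝒯 ∧
        f '' A = B := by
  classical
  have hcard : Fintype.card (Fin 2) = Module.finrank ℝ E := by
    simp [E]
  let b : Module.Basis (Fin 2) ℝ E := basisOfLinearIndependentOfCardEqFinrank hvw hcard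
  have hb : (b : Fin 2 → E) = ![v, w] := coe_basisOfLinearIndependentOfCardEqFinrank hvw hcard
  have hpt : ∀ z : ℤ × ℤ, pt b z = (z.1 : ℝ) • v + (z.2 : ℝ) • w := by
    intro z
    unfold pt
    rw [hb]
    rfl
  have hL : ∀ z, pt b z ∈ Lattice v w := fun z => ⟨z.1, z.2, hpt z⟩
  have hL' : ∀ u ∈ Lattice v w, ∃ z, u = pt b z := by
    rintro u ⟨m, n, rfl⟩
    exact ⟨(m, n), (hpt (m, n)).symm⟩
  have hst : Star b T := by
    intro q hq x y h1 h2
    exact pt_inj b (hn q hq _ (hL x) _ (hL y) h1 h2)
  have hs : ∀ z, ∃ t : Bool, ∀ x, g (pt b z) x = if t then -x else x := by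
    intro z
    rcases hg _ (hL z) with h | h
    · exact ⟨false, fun x => by rw [h x]; rfl⟩
    · exact ⟨true, fun x => by rw [h x]; rfl⟩
  choose s hs using hs
  have himg : ∀ z, (fun x => pt b z + g (pt b z) x) '' T = tl b T z (s z) := by
    intro z
    ext p
    constructor
    · rintro ⟨q, hq, rfl⟩
      show (if s z then pt b z - (pt b z + g (pt b z) q) else pt b z + g (pt b z) q - pt b z) ∈ T
      rw [hs z q]
      cases s z
      · show pt b z + q - pt b z ∈ T
        rwa [add_sub_cancel_left]
      · show pt b z - (pt b z + -q) ∈ T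
        rwa [show pt b z - (pt b z + -q) = q by abel]
    · intro hp
      have hp' : (if s z then pt b z - p else p - pt b z) ∈ T := hp
      refine ⟨_, hp', ?_⟩
      show pt b z + g (pt b z) (if s z then pt b z - p else p - pt b z) = p
      rw [hs z]
      cases s z
      · show pt b z + (p - pt b z) = p
        abel
      · show pt b z + -(pt b z - p) = p
        abel
  have hcov' : ∀ p, ∃ z, p ∈ tl b T z (s z) := by
    intro p
    have h1 : p ∈ (⋃ u ∈ Lattice v w, (fun x => u + g u x) '' T) := by
      rw [hcov]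
      exact mem_univ _
    rw [mem_iUnion₂] at h1
    obtain ⟨u, hu, h2⟩ := h1
    obtain ⟨z, rfl⟩ := hL' u hu
    rw [himg z] at h2
    exact ⟨z, h2⟩
  have hdis' : ∀ z w, z ≠ w → Disjoint (interior (tl b T z (s z)))
      (interior (tl b T w (s w))) := by
    intro z z' hzz
    have h1 := hdis _ (hL z) _ (hL z') (fun h => hzz (pt_inj b h))
    rwa [himg z, himg z'] at h1
  have hfit := fit_of_tiling hT hst hcov' hdis'
  obtain ⟨x, y, hxy⟩ := exists_chr_fit hT hfit
  exact isohedral_of_chr x y (cover_of_fit hT hxy) (fun z w h => disj_of_fit hst hxy h)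

end Pool.H3JL
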