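import Mathlib

set_option autoImplicit false

/-!
# Tiles at the points of a plane lattice: complementary pairs
-/

namespace Pool.H3JL

open Set

/-- The Euclidean plane. -/
abbrev E := EuclideanSpace ℝ (Fin 2)

section

variable (b : Module.Basis (Fin 2) ℝ E)

/-- The lattice point with the coordinates `z`. -/
noncomputable def pt (z : ℤ × ℤ) : E := (z.1 : ℝ) • b 0 + (z.2 : ℝ) • b 1

theorem pt_zero : pt b 0 = 0 := by
  simp [pt]

theorem pt_add (z w : ℤ × ℤ) : pt b (z + w) = pt b z + pt b w := by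
  unfold pt
  simp only [Prod.fst_add, Prod.snd_add]
  push_cast
  rw [add_smul, add_smul]
  abel

theorem pt_neg (z : ℤ × ℤ) : pt b (-z) = -pt b z := by
  unfold pt
  simp only [Prod.fst_neg, Prod.snd_neg]
  push_cast
  rw [neg_smul, neg_smul]
  abel

theorem pt_sub (z w : ℤ × ℤ) : pt b (z - w) = pt b z - pt b w := by
  rw [sub_eq_add_neg, pt_add, pt_neg, ← sub_eq_add_neg]

theorem pt_inj : Function.Injective (pt b) := by
  intro z w h
  have h0 := congrArg (fun x => b.repr x 0) h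
  have h1 := congrArg (fun x => b.repr x 1) h
  simp [pt] at h0 h1
  exact Prod.ext h0 h1

theorem pt_fin (p : E) (R : ℝ) : {x : ℤ × ℤ | ‖p - pt b x‖ ≤ R}.Finite := by
  have h := ZSpan.setFinite_inter b (Metric.isBounded_closedBall (x := p) (r := R))
  refine (h.preimage ((pt_inj b).injOn)).subset ?_
  intro x hx
  refine ⟨?_, ?_⟩
  · rw [Metric.mem_closedBall, dist_comm, dist_eq_norm]
    exact hx
  · show pt b x ∈ Submodule.span ℤ (range b)
    have e : pt b x = x.1 • b 0 + x.2 • b 1 := by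
      unfold pt
      rw [Int.cast_smul_eq_zsmul, Int.cast_smul_eq_zsmul]
    rw [e]
    exact add_mem (Submodule.smul_mem _ _ (Submodule.subset_span ⟨0, rfl⟩))
      (Submodule.smul_mem _ _ (Submodule.subset_span ⟨1, rfl⟩))

/-- The points whose two nearest lattice points are `z` and `w`. -/
def Nr (z w : ℤ × ℤ) : Set E :=
  {p | ∀ x, x ≠ z → x ≠ w → ‖p - pt b z‖ < ‖p - pt b x‖ ∧ ‖p - pt b w‖ < ‖p - pt b x‖}

theorem Nr_comm (z w : ℤ × ℤ) : Nr b z w = Nr b w z := by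
  ext p
  exact ⟨fun h x h1 h2 => (h x h2 h1).symm, fun h x h1 h2 => (h x h2 h1).symm⟩

theorem Nr_open (z w : ℤ × ℤ) : IsOpen (Nr b z w) := by
  rw [isOpen_iff_mem_nhds]
  intro p hp
  set R : ℝ := max ‖p - pt b z‖ ‖p - pt b w‖ + 2 with hR
  have hfin := pt_fin b p R
  have h1 : (Metric.ball p 1 ∩ ⋂ x ∈ {x : ℤ × ℤ | ‖p - pt b x‖ ≤ R},
      {q : E | x ≠ z → x ≠ w → ‖q - pt b z‖ < ‖q - pt b x‖ ∧
        ‖q - pt b w‖ < ‖q - pt b x‖}) ∈ nhds p := by
    refine Filter.inter_mem (Metric.ball_mem_nhds p one_pos) ?_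
    rw [Filter.biInter_mem hfin]
    intro x _
    by_cases hx : x ≠ z ∧ x ≠ w
    · have h2 : {q : E | ‖q - pt b z‖ < ‖q - pt b x‖ ∧ ‖q - pt b w‖ < ‖q - pt b x‖} ∈ nhds p := by
        have h3 : IsOpen ({q : E | ‖q - pt b z‖ < ‖q - pt b x‖} ∩
            {q : E | ‖q - pt b w‖ < ‖q - pt b x‖}) :=
          (isOpen_lt (by fun_prop) (by fun_prop)).inter (isOpen_lt (by fun_prop) (by fun_prop))
        exact h3.mem_nhds ⟨(hp x hx.1 hx.2).1, (hp x hx.1 hx.2).2⟩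
      exact Filter.mem_of_superset h2 fun q hq _ _ => hq
    · exact Filter.mem_of_superset Filter.univ_mem fun q _ h3 h4 => absurd ⟨h3, h4⟩ hx
  refine Filter.mem_of_superset h1 ?_
  rintro q ⟨hq1, hq2⟩ x hxz hxw
  by_cases hx : ‖p - pt b x‖ ≤ R
  · exact (mem_iInter₂.1 hq2 x hx) hxz hxw
  · rw [not_le] at hx
    rw [Metric.mem_ball, dist_eq_norm] at hq1
    have e1 : ‖p - pt b x‖ ≤ ‖q - pt b x‖ + ‖q - p‖ := by
      have := norm_sub_le (q - pt b x) (q - p)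
      rwa [show q - pt b x - (q - p) = p - pt b x by abel] at this
    have e2 : ‖q - pt b z‖ ≤ ‖p - pt b z‖ + ‖q - p‖ := by
      have := norm_add_le (p - pt b z) (q - p)
      rwa [show p - pt b z + (q - p) = q - pt b z by abel] at this
    have e3 : ‖q - pt b w‖ ≤ ‖p - pt b w‖ + ‖q - p‖ := by
      have := norm_add_le (p - pt b w) (q - p)
      rwa [show p - pt b w + (q - p) = q - pt b w by abel] at this
    have e4 : ‖p - pt b z‖ ≤ R - 2 := by rw [hR]; linarith [le_max_left ‖p - pt b z‖ ‖p - pt b w‖]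
    have e5 : ‖p - pt b w‖ ≤ R - 2 := by rw [hR]; linarith [le_max_right ‖p - pt b z‖ ‖p - pt b w‖]
    constructor <;> linarith

theorem dense_ne {a c : E} (h : a ≠ c) : Dense {p : E | ‖p - a‖ ≠ ‖p - c‖} := by
  rw [Metric.dense_iff]
  intro p r hr
  by_cases hp : ‖p - a‖ = ‖p - c‖
  · have hca : 0 < ‖c - a‖ := norm_pos_iff.2 (sub_ne_zero.2 h.symm)
    set t : ℝ := r / (2 * ‖c - a‖) with ht
    have htp : 0 < t := by positivity
    refine ⟨p + t • (c - a), ?_, ?_⟩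
    · rw [Metric.mem_ball, dist_eq_norm, add_sub_cancel_left, norm_smul, Real.norm_of_nonneg htp.le,
        ht]
      have : r / (2 * ‖c - a‖) * ‖c - a‖ = r / 2 := by field_simp
      rw [this]
      linarith
    · intro heq
      have e1 : ‖p + t • (c - a) - a‖ ^ 2 = ‖p - a‖ ^ 2 + 2 * t * inner ℝ (p - a) (c - a)
          + t ^ 2 * ‖c - a‖ ^ 2 := by
        rw [show p + t • (c - a) - a = (p - a) + t • (c - a) by abel, norm_add_sq_real,
          inner_smul_right, norm_smul, mul_pow, Real.norm_eq_abs, sq_abs]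
        ring
      have e2 : ‖p + t • (c - a) - c‖ ^ 2 = ‖p - c‖ ^ 2 + 2 * t * inner ℝ (p - c) (c - a)
          + t ^ 2 * ‖c - a‖ ^ 2 := by
        rw [show p + t • (c - a) - c = (p - c) + t • (c - a) by abel, norm_add_sq_real,
          inner_smul_right, norm_smul, mul_pow, Real.norm_eq_abs, sq_abs]
        ring
      have e3 : inner ℝ (p - a) (c - a) - inner ℝ (p - c) (c - a) = ‖c - a‖ ^ 2 := by
        rw [← inner_sub_left, show p - a - (p - c) = c - a by abel, real_inner_self_eq_norm_sq]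
      rw [heq, hp] at e1
      have e4 : 2 * t * (inner ℝ (p - a) (c - a) - inner ℝ (p - c) (c - a)) = 0 := by linarith
      rw [e3] at e4
      have : 0 < 2 * t * ‖c - a‖ ^ 2 := by positivity
      linarith
  · exact ⟨p, Metric.mem_ball_self hr, hp⟩

theorem Nr_dense {W : Set E} (hW : IsOpen W) (hne : W.Nonempty) :
    ∃ p ∈ W, ∃ z w : ℤ × ℤ, z ≠ w ∧ p ∈ Nr b z w ∧
      ‖p - pt b z‖ ≤ max ‖p - pt b 0‖ ‖p - pt b (1, 0)‖ ∧
      ‖p - pt b w‖ ≤ max ‖p - pt b 0‖ ‖p - pt b (1, 0)‖ := by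
  have hd : Dense (⋂ i : (ℤ × ℤ) × (ℤ × ℤ),
      {p : E | i.1 ≠ i.2 → ‖p - pt b i.1‖ ≠ ‖p - pt b i.2‖}) := by
    apply dense_iInter_of_isOpen
    · intro i
      by_cases hi : i.1 = i.2
      · have : {p : E | i.1 ≠ i.2 → ‖p - pt b i.1‖ ≠ ‖p - pt b i.2‖} = univ := by
          ext p
          simp [hi]
        rw [this]
        exact isOpen_univ
      · have : {p : E | i.1 ≠ i.2 → ‖p - pt b i.1‖ ≠ ‖p - pt b i.2‖}
            = {p : E | ‖p - pt b i.1‖ ≠ ‖p - pt b i.2‖} := by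
          ext p
          simp [hi]
        rw [this]
        exact isOpen_ne_fun (by fun_prop) (by fun_prop)
    · intro i
      by_cases hi : i.1 = i.2
      · have : {p : E | i.1 ≠ i.2 → ‖p - pt b i.1‖ ≠ ‖p - pt b i.2‖} = univ := by
          ext p
          simp [hi]
        rw [this]
        exact dense_univ
      · exact (dense_ne fun h => hi (pt_inj b h)).mono fun p hp _ => hp
  obtain ⟨p, hpW, hp⟩ := hd.inter_open_nonempty W hW hne
  have hdist : ∀ z w : ℤ × ℤ, z ≠ w → ‖p - pt b z‖ ≠ ‖p - pt b w‖ := fun z w h =>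
    (mem_iInter.1 hp (z, w)) h
  set R : ℝ := max ‖p - pt b 0‖ ‖p - pt b (1, 0)‖ with hR
  have hfin := pt_fin b p R
  have m0 : (0 : ℤ × ℤ) ∈ {x : ℤ × ℤ | ‖p - pt b x‖ ≤ R} := by
    show ‖p - pt b 0‖ ≤ R
    exact le_max_left _ _
  have m1 : ((1, 0) : ℤ × ℤ) ∈ {x : ℤ × ℤ | ‖p - pt b x‖ ≤ R} := by
    show ‖p - pt b (1, 0)‖ ≤ R
    exact le_max_right _ _
  obtain ⟨z, hz, hzmin⟩ := Set.exists_min_image _ (fun x => ‖p - pt b x‖) hfin ⟨0, m0⟩
  have hne2 : ({x : ℤ × ℤ | ‖p - pt b x‖ ≤ R} \ {z}).Nonempty := by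
    by_cases h : (0 : ℤ × ℤ) = z
    · refine ⟨(1, 0), m1, ?_⟩
      rw [mem_singleton_iff, ← h]
      decide
    · exact ⟨0, m0, h⟩
  obtain ⟨w, hw, hwmin⟩ := Set.exists_min_image _ (fun x => ‖p - pt b x‖)
    (hfin.subset diff_subset) hne2
  have hwz : w ≠ z := hw.2
  refine ⟨p, hpW, z, w, hwz.symm, ?_, hz, hw.1⟩
  intro x hxz hxw
  by_cases hx : ‖p - pt b x‖ ≤ R
  · exact ⟨lt_of_le_of_ne (hzmin x hx) (hdist _ _ hxz.symm),
      lt_of_le_of_ne (hwmin x ⟨hx, hxz⟩) (hdist _ _ hxw.symm)⟩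
  · rw [not_le] at hx
    exact ⟨lt_of_le_of_lt hz hx, lt_of_le_of_lt hw.1 hx⟩

end

/-- `A` and `B` are complementary in `N`. -/
def Fit (N A B : Set E) : Prop :=
  (∀ p ∈ N, p ∈ A ∨ p ∈ B) ∧ ∀ p ∈ N, p ∈ interior A → p ∈ interior B → False

theorem fit_symm {N A B : Set E} (h : Fit N A B) : Fit N B A :=
  ⟨fun p hp => (h.1 p hp).symm, fun p hp h1 h2 => h.2 p hp h2 h1⟩

theorem fit_congr {N A B C : Set E} (hN : IsOpen N) (hB : B ⊆ closure (interior B))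
    (hC : IsClosed C) (h1 : Fit N A B) (h2 : Fit N A C) : ∀ p ∈ N, p ∈ B → p ∈ C := by
  intro p hp hpB
  by_contra hpC
  have hO : IsOpen (N ∩ Cᶜ) := hN.inter hC.isOpen_compl
  obtain ⟨q, hq1, hq2⟩ := mem_closure_iff.1 (hB hpB) _ hO ⟨hp, hpC⟩
  have hW : IsOpen ((N ∩ Cᶜ) ∩ interior B) := hO.inter isOpen_interior
  have hA : (N ∩ Cᶜ) ∩ interior B ⊆ A := by
    rintro r ⟨⟨hr1, hr2⟩, _⟩
    exact (h2.1 r hr1).resolve_right hr2
  exact h1.2 q hq1.1 (interior_maximal hA hW ⟨hq1, hq2⟩) hq2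

theorem fit_replace {N A B A' B' : Set E} (hN : IsOpen N) (hA : ∀ p ∈ N, p ∈ A ↔ p ∈ A')
    (hB : ∀ p ∈ N, p ∈ B ↔ p ∈ B') (h : Fit N A B) : Fit N A' B' := by
  have key : ∀ {X Y : Set E}, (∀ p ∈ N, p ∈ X ↔ p ∈ Y) → ∀ p ∈ N, p ∈ interior Y →
      p ∈ interior X := by
    intro X Y hXY p hp hpY
    have h1 : IsOpen (N ∩ interior Y) := hN.inter isOpen_interior
    exact interior_maximal (fun q hq => (hXY q hq.1).2 (interior_subset hq.2)) h1 ⟨hp, hpY⟩
  refine ⟨fun p hp => ?_, fun p hp h1 h2 => h.2 p hp (key hA p hp h1) (key hB p hp h2)⟩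
  rcases h.1 p hp with h1 | h1
  · exact Or.inl ((hA p hp).1 h1)
  · exact Or.inr ((hB p hp).1 h1)

theorem fit_preimage (φ : E ≃ₜ E) {N A B : Set E} :
    Fit (φ ⁻¹' N) (φ ⁻¹' A) (φ ⁻¹' B) ↔ Fit N A B := by
  unfold Fit
  rw [← φ.preimage_interior, ← φ.preimage_interior]
  constructor
  · rintro ⟨h1, h2⟩
    refine ⟨fun p hp => ?_, fun p hp h3 h4 => ?_⟩
    · obtain ⟨q, rfl⟩ := φ.surjective p
      exact h1 q hp
    · obtain ⟨q, rfl⟩ := φ.surjective p
      exact h2 q hp h3 h4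
  · rintro ⟨h1, h2⟩
    exact ⟨fun p hp => h1 _ hp, fun p hp h3 h4 => h2 _ hp h3 h4⟩

end Pool.H3JL
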