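import Pool.Agent.Helper3.JL.Geo
import Pool.Agent.Helper3.JL.Comb

set_option autoImplicit false

/-!
# Tiles at the points of a plane lattice: translations and half turns
-/

namespace Pool.H3JL

open Set

section

variable (b : Module.Basis (Fin 2) ℝ E) (T : Set E)

/-- The copy of `T` at the lattice point `z`, reversed if `s = true`. -/
def tl (z : ℤ × ℤ) (s : Bool) : Set E := {p | (if s then pt b z - p else p - pt b z) ∈ T}

/-- The map which defines a copy. -/
noncomputable def hm (z : ℤ × ℤ) (s : Bool) : E ≃ₜ E :=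
  if s then Homeomorph.subLeft (pt b z) else Homeomorph.subRight (pt b z)

theorem tl_eq (z : ℤ × ℤ) (s : Bool) : tl b T z s = (hm b z s) ⁻¹' T := by
  ext p
  cases s <;> rfl

theorem mem_tl_false {z : ℤ × ℤ} {p : E} : p ∈ tl b T z false ↔ p - pt b z ∈ T := Iff.rfl

theorem mem_tl_true {z : ℤ × ℤ} {p : E} : p ∈ tl b T z true ↔ pt b z - p ∈ T := Iff.rfl

/-- Two copies are complementary. -/
def F (s t : Bool) (v : ℤ × ℤ) : Prop := Fit (Nr b 0 v) (tl b T 0 s) (tl b T v t)

variable {b T}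

theorem tl_closed (hT : closure (interior T) = T) (z : ℤ × ℤ) (s : Bool) :
    IsClosed (tl b T z s) := by
  rw [tl_eq]
  exact (hT ▸ isClosed_closure : IsClosed T).preimage (hm b z s).continuous

theorem tl_reg (hT : closure (interior T) = T) (z : ℤ × ℤ) (s : Bool) :
    closure (interior (tl b T z s)) = tl b T z s := by
  rw [tl_eq, ← Homeomorph.preimage_interior, ← Homeomorph.preimage_closure, hT]

theorem fit_tr {z w : ℤ × ℤ} {s t : Bool} :
    Fit (Nr b z w) (tl b T z s) (tl b T w t) ↔ F b T s t (w - z) := by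
  unfold F
  have e1 : (Homeomorph.subRight (pt b z)) ⁻¹' (Nr b 0 (w - z)) = Nr b z w := by
    ext p
    constructor
    · intro h x h1 h2
      have h3 := h (x - z) (sub_ne_zero.2 h1) (fun h => h2 (sub_left_injective h))
      simp only [Homeomorph.coe_subRight, pt_sub, pt_zero, sub_zero, sub_sub_sub_cancel_right] at h3
      exact h3
    · intro h x h1 h2
      have h3 := h (x + z) (fun h => h1 (by simpa using h)) (fun h => h2 (by rw [← h]; abel))
      rw [pt_add] at h3
      simp only [Homeomorph.coe_subRight, pt_sub, pt_zero, sub_zero, sub_sub_sub_cancel_right]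
      rw [show p - pt b z - pt b x = p - (pt b x + pt b z) by abel]
      exact h3
  have e2 : (Homeomorph.subRight (pt b z)) ⁻¹' (tl b T 0 s) = tl b T z s := by
    ext p
    cases s
    · show p - pt b z - pt b 0 ∈ T ↔ p - pt b z ∈ T
      rw [pt_zero, sub_zero]
    · show pt b 0 - (p - pt b z) ∈ T ↔ pt b z - p ∈ T
      rw [pt_zero, zero_sub, neg_sub]
  have e3 : (Homeomorph.subRight (pt b z)) ⁻¹' (tl b T (w - z) t) = tl b T w t := by
    ext p
    cases t
    · show p - pt b z - pt b (w - z) ∈ T ↔ p - pt b w ∈ T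
      rw [pt_sub, sub_sub_sub_cancel_right]
    · show pt b (w - z) - (p - pt b z) ∈ T ↔ pt b w - p ∈ T
      rw [pt_sub, sub_sub_sub_cancel_right]
  rw [← e1, ← e2, ← e3]
  exact fit_preimage _

theorem F_neg {s t : Bool} {v : ℤ × ℤ} (h : F b T s t v) : F b T (!s) (!t) (-v) := by
  unfold F at h ⊢
  have e1 : (Homeomorph.neg E) ⁻¹' (Nr b 0 (-v)) = Nr b 0 v := by
    ext p
    constructor
    · intro h x h1 h2
      have h3 := h (-x) (neg_ne_zero.2 h1) (fun h => h2 (neg_injective h))
      simp only [Homeomorph.coe_neg, Pi.neg_apply, id, pt_neg, pt_zero, sub_zero, sub_neg_eq_add,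
        norm_neg] at h3
      rw [show -p + pt b x = -(p - pt b x) by abel, show -p + pt b v = -(p - pt b v) by abel,
        norm_neg, norm_neg] at h3
      rw [pt_zero, sub_zero]
      exact h3
    · intro h x h1 h2
      have h3 := h (-x) (neg_ne_zero.2 h1) (fun h => h2 (by rw [← h, neg_neg]))
      rw [pt_neg, pt_zero, sub_zero, sub_neg_eq_add] at h3
      simp only [Homeomorph.coe_neg, Pi.neg_apply, id, pt_neg, pt_zero, sub_zero, sub_neg_eq_add,
        norm_neg]
      rw [show -p + pt b v = -(p - pt b v) by abel, show -p - pt b x = -(p + pt b x) by abel,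
        norm_neg, norm_neg]
      exact h3
  have e2 : (Homeomorph.neg E) ⁻¹' (tl b T 0 (!s)) = tl b T 0 s := by
    ext p
    cases s
    · show pt b 0 - (-p) ∈ T ↔ p - pt b 0 ∈ T
      rw [pt_zero, zero_sub, neg_neg, sub_zero]
    · show -p - pt b 0 ∈ T ↔ pt b 0 - p ∈ T
      rw [pt_zero, zero_sub, sub_zero]
  have e3 : (Homeomorph.neg E) ⁻¹' (tl b T (-v) (!t)) = tl b T v t := by
    ext p
    cases t
    · show pt b (-v) - (-p) ∈ T ↔ p - pt b v ∈ T
      rw [pt_neg, show -pt b v - -p = p - pt b v by abel]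
    · show -p - pt b (-v) ∈ T ↔ pt b v - p ∈ T
      rw [pt_neg, show -p - -pt b v = pt b v - p by abel]
  rw [← e1, ← e2, ← e3, fit_preimage] at h
  exact h

theorem F_swap {s t : Bool} {v : ℤ × ℤ} (h : F b T s t v) : F b T t s (-v) := by
  have h1 : Fit (Nr b v 0) (tl b T v t) (tl b T 0 s) := by
    rw [Nr_comm]
    exact fit_symm h
  rw [fit_tr, zero_sub] at h1
  exact h1

theorem F_dual {s t : Bool} {v : ℤ × ℤ} (h : F b T s t v) : F b T (!t) (!s) v := by
  have := F_neg (F_swap h)
  rwa [neg_neg] at this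

theorem F_chain (hT : closure (interior T) = T) {v : ℤ × ℤ} (h1 : F b T false false v)
    (h2 : F b T false true v) : F b T true false v := by
  have hN := Nr_open b 0 v
  have k1 : ∀ p ∈ Nr b 0 v, p ∈ tl b T v false ↔ p ∈ tl b T v true := fun p hp =>
    ⟨fit_congr hN (tl_reg hT v false).symm.subset (tl_closed hT v true) h1 h2 p hp,
      fit_congr hN (tl_reg hT v true).symm.subset (tl_closed hT v false) h2 h1 p hp⟩
  have hR : ∀ p ∈ Nr b 0 v, pt b v - p ∈ Nr b 0 v := by
    intro p hp x h3 h4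
    have h5 := hp (v - x) (sub_ne_zero.2 h4.symm) (fun h => h3 (by simpa using h))
    rw [pt_zero, sub_zero, pt_sub] at h5
    rw [pt_zero, sub_zero, show pt b v - p - pt b v = -p by abel, norm_neg,
      show pt b v - p = -(p - pt b v) by abel, norm_neg,
      show -(p - pt b v) - pt b x = -(p - (pt b v - pt b x)) by abel, norm_neg]
    exact ⟨h5.2, h5.1⟩
  have k2 : ∀ p ∈ Nr b 0 v, p ∈ tl b T 0 false ↔ p ∈ tl b T 0 true := by
    intro p hp
    have h3 := k1 _ (hR p hp)
    rw [mem_tl_false, mem_tl_true, show pt b v - p - pt b v = -p by abel,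
      show pt b v - (pt b v - p) = p by abel] at h3
    rw [mem_tl_false, mem_tl_true, pt_zero, sub_zero, zero_sub]
    exact h3.symm
  exact fit_replace hN k2 (fun p hp => (k1 p hp).symm) h2

/-- Equal labels at the difference `v`. -/
def Eq' (s : ℤ × ℤ → Bool) (v : ℤ × ℤ) : Prop := ∃ u, s (u + v) = s u

/-- Different labels at the difference `v`. -/
def Df (s : ℤ × ℤ → Bool) (v : ℤ × ℤ) : Prop := ∃ u, s (u + v) ≠ s u

theorem F_of_eq {s : ℤ × ℤ → Bool}
    (hs : ∀ z w, z ≠ w → Fit (Nr b z w) (tl b T z (s z)) (tl b T w (s w))) {v : ℤ × ℤ}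
    (hv : v ≠ 0) (h : Eq' s v) : F b T false false v ∧ F b T true true v := by
  obtain ⟨u, hu⟩ := h
  have h1 := hs u (u + v) (fun h => hv (by simpa using h))
  rw [fit_tr, add_sub_cancel_left, hu] at h1
  cases hsu : s u
  · rw [hsu] at h1
    exact ⟨h1, F_dual h1⟩
  · rw [hsu] at h1
    exact ⟨F_dual h1, h1⟩

theorem F_of_df (hT : closure (interior T) = T) {s : ℤ × ℤ → Bool}
    (hs : ∀ z w, z ≠ w → Fit (Nr b z w) (tl b T z (s z)) (tl b T w (s w))) {v : ℤ × ℤ}
    (hv : v ≠ 0) (h : Df s v) : F b T false true v ∧ F b T true false v := by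
  obtain ⟨u, hu⟩ := h
  have h1 := hs u (u + v) (fun h => hv (by simpa using h))
  have h2 := hs (u + v) (u + v + v) (fun h => hv (by simpa using h))
  rw [fit_tr, add_sub_cancel_left] at h1 h2
  by_cases hE : Eq' s v
  · obtain ⟨g1, g2⟩ := F_of_eq hs hv hE
    cases hsu : s u
    · have h3 : s (u + v) = true := by
        rw [hsu] at hu
        simpa using hu
      rw [hsu, h3] at h1
      exact ⟨h1, F_chain hT g1 h1⟩
    · have h3 : s (u + v) = false := by
        rw [hsu] at hu
        simpa using hu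
      rw [hsu, h3] at h1
      have h4 : F b T false true (-v) := F_neg h1
      have h5 : F b T false false (-v) := F_neg g2
      have h6 := F_neg (F_chain hT h5 h4)
      rw [neg_neg] at h6
      exact ⟨h6, h1⟩
  · have h3 : s (u + v + v) ≠ s (u + v) := fun h => hE ⟨u + v, h⟩
    cases hsu : s u <;> cases hsv : s (u + v) <;> cases hsw : s (u + v + v) <;>
      rw [hsu] at hu h1 <;> rw [hsv] at hu h1 h2 h3 <;> rw [hsw] at h2 h3 <;>
      first
        | exact absurd rfl hu
        | exact absurd rfl h3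
        | exact ⟨h1, h2⟩
        | exact ⟨h2, h1⟩

theorem nr_even {x : ℤ × ℤ} (hx : x ≠ 0) {p : E} (hp : p ∈ Nr b 0 (x + x)) : False := by
  have h1 := hp x hx (fun h => hx (by simpa using h))
  rw [pt_zero, sub_zero, pt_add] at h1
  have e : ‖p‖ ^ 2 + ‖p - (pt b x + pt b x)‖ ^ 2 = 2 * ‖p - pt b x‖ ^ 2 + 2 * ‖pt b x‖ ^ 2 := by
    rw [norm_sub_sq_real, norm_sub_sq_real, norm_add_sq_real, inner_add_right,
      real_inner_self_eq_norm_sq]
    ring
  have h2 : ‖p‖ ^ 2 < ‖p - pt b x‖ ^ 2 := by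
    have := norm_nonneg p
    gcongr
    exact h1.1
  have h3 : ‖p - (pt b x + pt b x)‖ ^ 2 < ‖p - pt b x‖ ^ 2 := by
    have := norm_nonneg (p - (pt b x + pt b x))
    gcongr
    exact h1.2
  nlinarith [sq_nonneg ‖pt b x‖]

theorem nr_inner {x y : ℤ × ℤ} (hx : x ≠ 0) (hy : y ≠ 0) {p : E} (hp : p ∈ Nr b 0 (x + y)) :
    inner ℝ (pt b x) (pt b y) < 0 := by
  have h1 := hp x hx (fun h => hy (by simpa using h))
  have h2 := hp y hy (fun h => hx (by simpa using h))
  rw [pt_zero, sub_zero, pt_add] at h1 h2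
  have e : ‖p‖ ^ 2 + ‖p - (pt b x + pt b y)‖ ^ 2
      = ‖p - pt b x‖ ^ 2 + ‖p - pt b y‖ ^ 2 + 2 * inner ℝ (pt b x) (pt b y) := by
    rw [norm_sub_sq_real, norm_sub_sq_real, norm_sub_sq_real, norm_add_sq_real, inner_add_right]
    ring
  have h3 : ‖p‖ ^ 2 < ‖p - pt b x‖ ^ 2 := by
    have := norm_nonneg p
    gcongr
    exact h1.1
  have h4 : ‖p - (pt b x + pt b y)‖ ^ 2 < ‖p - pt b y‖ ^ 2 := by
    have := norm_nonneg (p - (pt b x + pt b y))
    gcongr
    exact h2.2
  linarith

/-- Relevant vectors in the same class modulo two agree up to sign. -/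
theorem nr_class {v w : ℤ × ℤ} (h1 : (Nr b 0 v).Nonempty) (h2 : (Nr b 0 w).Nonempty)
    (p1 : par v.1 = par w.1) (p2 : par v.2 = par w.2) : w = v ∨ w = -v := by
  by_contra hcon
  push Not at hcon
  have q1 : v.1 % 2 = w.1 % 2 := by
    unfold par at p1
    rcases Int.emod_two_eq_zero_or_one v.1 with h | h <;>
      rcases Int.emod_two_eq_zero_or_one w.1 with h' | h' <;> simp [h, h'] at p1 ⊢
  have q2 : v.2 % 2 = w.2 % 2 := by
    unfold par at p2
    rcases Int.emod_two_eq_zero_or_one v.2 with h | h <;>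
      rcases Int.emod_two_eq_zero_or_one w.2 with h' | h' <;> simp [h, h'] at p2 ⊢
  obtain ⟨x, hx1, hx2⟩ : ∃ x : ℤ × ℤ, v.1 + w.1 = 2 * x.1 ∧ v.2 + w.2 = 2 * x.2 :=
    ⟨((v.1 + w.1) / 2, (v.2 + w.2) / 2), by dsimp only; omega, by dsimp only; omega⟩
  set y : ℤ × ℤ := v - x with hy
  have ev : v = x + y := by rw [hy]; abel
  have ew : w = x + -y := by
    ext
    · simp only [hy, Prod.fst_add, Prod.fst_neg, Prod.fst_sub]
      omega
    · simp only [hy, Prod.snd_add, Prod.snd_neg, Prod.snd_sub]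
      omega
  have hx0 : x ≠ 0 := by
    rintro rfl
    exact hcon.2 (by rw [ew, ev]; simp)
  have hy0 : y ≠ 0 := by
    intro h
    exact hcon.1 (by rw [ew, ev, h]; simp)
  obtain ⟨p, hp⟩ := h1
  obtain ⟨q, hq⟩ := h2
  rw [ev] at hp
  rw [ew] at hq
  have i1 := nr_inner hx0 hy0 hp
  have i2 := nr_inner hx0 (neg_ne_zero.2 hy0) hq
  rw [pt_neg, inner_neg_right] at i2
  linarith

theorem exists_chr {s : ℤ × ℤ → Bool} : ∃ x y : Bool, ∀ v : ℤ × ℤ, v ≠ 0 →
    (Nr b 0 v).Nonempty → (chr x y v = false → Eq' s v) ∧ (chr x y v = true → Df s v) := by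
  -- `bad c d e y`: a relevant vector of class `(c, d)` forces the value `y`
  let bad : Bool → Bool → Bool → Prop := fun c d y => ∃ v : ℤ × ℤ, v ≠ 0 ∧ (Nr b 0 v).Nonempty ∧
    par v.1 = c ∧ par v.2 = d ∧ ∀ u, s (u + v) = (s u ^^ y)
  have huniq : ∀ c d, ¬(bad c d false ∧ bad c d true) := by
    rintro c d ⟨⟨v, _, hv, v1, v2, hv3⟩, ⟨w, _, hw, w1, w2, hw3⟩⟩
    have h4 : ∀ u, s (u + w) = s u := by
      rcases nr_class hv hw (by rw [v1, w1]) (by rw [v2, w2]) with rfl | rfl
      · intro u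
        rw [hv3 u, Bool.xor_false]
      · intro u
        have h5 := hv3 (u + -v)
        rw [Bool.xor_false, neg_add_cancel_right] at h5
        exact h5.symm
    have h6 := hw3 0
    rw [h4 0] at h6
    revert h6
    cases s 0 <;> simp
  obtain ⟨x, y, hx, hy, hxy⟩ := pick (bad true false) (bad false true) (bad true true)
    (huniq _ _) (huniq _ _) (huniq _ _) (by
      rintro y1 y2 y3 ⟨v1, _, _, a1, b1, h1⟩ ⟨v2, _, _, a2, b2, h2⟩ ⟨v3, _, _, a3, b3, h3⟩
      exact rule_sum h1 h2 h3 a1 b1 a2 b2 a3 b3)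
  refine ⟨x, y, fun v hv hne => ?_⟩
  have key : ∀ c d z, par v.1 = c → par v.2 = d → ¬ bad c d (!z) →
      (z = false → Eq' s v) ∧ (z = true → Df s v) := by
    intro c d z h1 h2 h3
    constructor
    · rintro rfl
      by_contra hE
      apply h3
      refine ⟨v, hv, hne, h1, h2, fun u => ?_⟩
      have h4 : s (u + v) ≠ s u := fun h => hE ⟨u, h⟩
      revert h4
      cases s (u + v) <;> cases s u <;> simp
    · rintro rfl
      by_contra hD
      apply h3
      refine ⟨v, hv, hne, h1, h2, fun u => ?_⟩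
      have h4 : s (u + v) = s u := by
        by_contra h
        exact hD ⟨u, h⟩
      rw [h4]
      cases s u <;> rfl
  cases h1 : par v.1 <;> cases h2 : par v.2
  · exfalso
    unfold par at h1 h2
    have q1 : v.1 % 2 = 0 := by
      rcases Int.emod_two_eq_zero_or_one v.1 with h | h
      · exact h
      · simp [h] at h1
    have q2 : v.2 % 2 = 0 := by
      rcases Int.emod_two_eq_zero_or_one v.2 with h | h
      · exact h
      · simp [h] at h2
    have ev : v = (v.1 / 2, v.2 / 2) + (v.1 / 2, v.2 / 2) := by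
      ext
      · simp only [Prod.mk_add_mk]
        omega
      · simp only [Prod.mk_add_mk]
        omega
    obtain ⟨p, hp⟩ := hne
    rw [ev] at hp
    refine nr_even (fun h => hv ?_) hp
    rw [ev, h, add_zero]
  · have := key false true y h1 h2 hy
    have e : chr x y v = y := by
      unfold chr
      rw [h1, h2]
      cases x <;> cases y <;> rfl
    rwa [e]
  · have := key true false x h1 h2 hx
    have e : chr x y v = x := by
      unfold chr
      rw [h1, h2]
      cases x <;> cases y <;> rfl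
    rwa [e]
  · have := key true true (x ^^ y) h1 h2 hxy
    have e : chr x y v = (x ^^ y) := by
      unfold chr
      rw [h1, h2]
      cases x <;> cases y <;> rfl
    rwa [e]

/-- From complementary pairs to a tiling: covering. -/
theorem cover_of_fit (hT : closure (interior T) = T) {s : ℤ × ℤ → Bool}
    (hs : ∀ z w, z ≠ w → Fit (Nr b z w) (tl b T z (s z)) (tl b T w (s w))) (p : E) :
    ∃ z, p ∈ tl b T z (s z) := by
  by_contra hcon
  push Not at hcon
  set R : ℝ := max ‖p - pt b 0‖ ‖p - pt b (1, 0)‖ + 2 with hR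
  have hfin := pt_fin b p R
  have hO : IsOpen (Metric.ball p 1 ∩ ⋂ x ∈ {x : ℤ × ℤ | ‖p - pt b x‖ ≤ R},
      (tl b T x (s x))ᶜ) := by
    refine Metric.isOpen_ball.inter ?_
    exact hfin.isOpen_biInter fun x _ => (tl_closed hT x (s x)).isOpen_compl
  obtain ⟨q, ⟨hq1, hq2⟩, z, w, hzw, hq, hz, hw⟩ := Nr_dense b hO
    ⟨p, Metric.mem_ball_self one_pos, mem_iInter₂.2 fun x _ => hcon x⟩
  rw [Metric.mem_ball, dist_eq_norm] at hq1
  have tri : ∀ x : ℤ × ℤ, ‖p - pt b x‖ ≤ ‖q - pt b x‖ + ‖q - p‖ := by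
    intro x
    have := norm_sub_le (q - pt b x) (q - p)
    rwa [show q - pt b x - (q - p) = p - pt b x by abel] at this
  have tri2 : ∀ x : ℤ × ℤ, ‖q - pt b x‖ ≤ ‖p - pt b x‖ + ‖q - p‖ := by
    intro x
    have := norm_add_le (p - pt b x) (q - p)
    rwa [show p - pt b x + (q - p) = q - pt b x by abel] at this
  have hmax : max ‖q - pt b 0‖ ‖q - pt b (1, 0)‖ ≤ R - 1 := by
    apply max_le
    · have := tri2 0
      rw [hR]
      linarith [le_max_left ‖p - pt b 0‖ ‖p - pt b (1, 0)‖]
    · have := tri2 (1, 0)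
      rw [hR]
      linarith [le_max_right ‖p - pt b 0‖ ‖p - pt b (1, 0)‖]
  have hzR : ‖p - pt b z‖ ≤ R := by
    have := tri z
    linarith
  have hwR : ‖p - pt b w‖ ≤ R := by
    have := tri w
    linarith
  rcases (hs z w hzw).1 q hq with h | h
  · exact (mem_iInter₂.1 hq2 z hzR) h
  · exact (mem_iInter₂.1 hq2 w hwR) h

/-- The sets `T` all of whose points have at most one nearer lattice point. -/
def Star (b : Module.Basis (Fin 2) ℝ E) (T : Set E) : Prop :=
  ∀ q ∈ T, ∀ x y : ℤ × ℤ, ‖q - pt b x‖ < ‖q‖ → ‖q - pt b y‖ < ‖q‖ → x = y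

theorem star_near (hst : Star b T) {z w : ℤ × ℤ} (hzw : z ≠ w) {p : E} (hp : p ∈ Nr b z w)
    {x : ℤ × ℤ} {t : Bool} (hx : p ∈ tl b T x t) : x = z ∨ x = w := by
  by_contra hcon
  push Not at hcon
  have h1 := hp x hcon.1 hcon.2
  apply hzw
  cases t
  · have hx' : p - pt b x ∈ T := hx
    have h2 := hst _ hx' (z - x) (w - x) (by
      rw [pt_sub, sub_sub_sub_cancel_right]
      exact h1.1) (by
      rw [pt_sub, sub_sub_sub_cancel_right]
      exact h1.2)
    exact sub_left_injective h2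
  · have hx' : pt b x - p ∈ T := hx
    have h2 := hst _ hx' (x - z) (x - w) (by
      rw [pt_sub, show pt b x - p - (pt b x - pt b z) = -(p - pt b z) by abel, norm_neg,
        show pt b x - p = -(p - pt b x) by abel, norm_neg]
      exact h1.1) (by
      rw [pt_sub, show pt b x - p - (pt b x - pt b w) = -(p - pt b w) by abel, norm_neg,
        show pt b x - p = -(p - pt b x) by abel, norm_neg]
      exact h1.2)
    exact sub_right_injective h2

/-- From complementary pairs to a tiling: disjointness. -/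
theorem disj_of_fit (hst : Star b T) {s : ℤ × ℤ → Bool}
    (hs : ∀ z w, z ≠ w → Fit (Nr b z w) (tl b T z (s z)) (tl b T w (s w))) {z w : ℤ × ℤ}
    (hzw : z ≠ w) : Disjoint (interior (tl b T z (s z))) (interior (tl b T w (s w))) := by
  rw [Set.disjoint_iff_inter_eq_empty]
  by_contra hne
  obtain ⟨p, ⟨hp1, hp2⟩, x, y, hxy, hp, _, _⟩ := Nr_dense b
    (isOpen_interior.inter isOpen_interior) (Set.nonempty_iff_ne_empty.2 hne)
  have h1 := star_near hst hxy hp (interior_subset hp1)
  have h2 := star_near hst hxy hp (interior_subset hp2)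
  have h3 : (z = x ∧ w = y) ∨ (z = y ∧ w = x) := by
    rcases h1 with rfl | rfl <;> rcases h2 with rfl | rfl
    · exact absurd rfl hzw
    · exact Or.inl ⟨rfl, rfl⟩
    · exact Or.inr ⟨rfl, rfl⟩
    · exact absurd rfl hzw
  rcases h3 with ⟨rfl, rfl⟩ | ⟨rfl, rfl⟩
  · exact (hs z w hzw).2 p hp hp1 hp2
  · rw [Nr_comm] at hp
    exact (hs z w hzw).2 p hp hp1 hp2

/-- From a tiling to complementary pairs. -/
theorem fit_of_tiling (hT : closure (interior T) = T) (hst : Star b T) {s : ℤ × ℤ → Bool}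
    (hcov : ∀ p, ∃ z, p ∈ tl b T z (s z))
    (hdis : ∀ z w, z ≠ w → Disjoint (interior (tl b T z (s z))) (interior (tl b T w (s w))))
    (z w : ℤ × ℤ) (hzw : z ≠ w) : Fit (Nr b z w) (tl b T z (s z)) (tl b T w (s w)) := by
  refine ⟨fun p hp => ?_, fun p _ h1 h2 => (Set.disjoint_left.1 (hdis z w hzw)) h1 h2⟩
  obtain ⟨x, hx⟩ := hcov p
  rcases star_near hst hzw hp hx with rfl | rfl
  · exact Or.inl hx
  · exact Or.inr hx

/-- The tiling of the character. -/
theorem exists_chr_fit (hT : closure (interior T) = T) {s : ℤ × ℤ → Bool}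
    (hs : ∀ z w, z ≠ w → Fit (Nr b z w) (tl b T z (s z)) (tl b T w (s w))) :
    ∃ x y : Bool, ∀ z w, z ≠ w → Fit (Nr b z w) (tl b T z (chr x y z)) (tl b T w (chr x y w)) := by
  obtain ⟨x, y, hxy⟩ := exists_chr (b := b) (s := s)
  refine ⟨x, y, fun z w hzw => ?_⟩
  rw [fit_tr]
  have hv : w - z ≠ 0 := sub_ne_zero.2 hzw.symm
  by_cases hne : (Nr b 0 (w - z)).Nonempty
  · obtain ⟨h1, h2⟩ := hxy (w - z) hv hne
    have hw : chr x y w = (chr x y (w - z) ^^ chr x y z) := by
      rw [← chr_add, sub_add_cancel]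
    cases hc : chr x y (w - z)
    · obtain ⟨g1, g2⟩ := F_of_eq hs hv (h1 hc)
      rw [hw, hc, Bool.false_xor]
      cases chr x y z
      · exact g1
      · exact g2
    · obtain ⟨g1, g2⟩ := F_of_df hT hs hv (h2 hc)
      rw [hw, hc, Bool.true_xor]
      cases chr x y z
      · exact g1
      · exact g2
  · rw [Set.not_nonempty_iff_eq_empty] at hne
    unfold F
    rw [hne]
    exact ⟨fun p hp => absurd hp (Set.notMem_empty p), fun p hp => absurd hp (Set.notMem_empty p)⟩

end

end Pool.H3JL
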